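import Mathlib

/-!
# MP_64f3b0_co, Q2: the symmetric decomposition need not be interlacing

For every field `k` there is a two-dimensional Cohen–Macaulay* simplicial complex `L` (six vertices,
ten triangles) such that the symmetric decomposition of `h(sd L, x)` is nonnegative and real-rooted
but not interlacing.
-/

set_option autoImplicit false
set_option linter.unusedSectionVars false
set_option linter.unusedSimpArgs false

open Finset

namespace Pool.Agent.Results.MP_64f3b0_co.NotInterlacing

/-! ### Definitions -/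

/-- A finite abstract simplicial complex with vertices among `Fin N` (as a polyhedral complex its
polytopes are the simplices spanned by its faces). -/
structure Cplx (N : ℕ) where
  /-- the faces, the empty one included -/
  faces : Finset (Finset (Fin N))
  empty_mem : ∅ ∈ faces
  down : ∀ σ ∈ faces, ∀ τ ⊆ σ, τ ∈ faces

/-- `F` is a facet (a maximal nonempty face) of `L`. -/
def IsFacet {N : ℕ} (L : Cplx N) (F : Finset (Fin N)) : Prop :=
  F ∈ L.faces ∧ F.Nonempty ∧ ∀ τ ∈ L.faces, F ⊆ τ → τ = F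

/-- Deletion of a facet, keeping its proper faces. -/
def delFacet {N : ℕ} (L : Cplx N) (F : Finset (Fin N)) (hF : IsFacet L F) : Cplx N where
  faces := L.faces.erase F
  empty_mem := Finset.mem_erase.2 ⟨hF.2.1.ne_empty.symm, L.empty_mem⟩
  down := by
    intro σ hσ τ hτ
    rw [Finset.mem_erase] at hσ ⊢
    refine ⟨?_, L.down σ hσ.2 τ hτ⟩
    rintro rfl
    exact hσ.1 (hF.2.2 σ hσ.2 hτ)

/-- All chains (totally ordered subsets) of elements of `Q`: the faces of the order complex. -/
def orderComplex {P : Type} [DecidableEq P] [LE P] [DecidableLE P] (Q : Finset P) :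
    Finset (Finset P) :=
  Q.powerset.filter fun T => ∀ x ∈ T, ∀ y ∈ T, x ≤ y ∨ y ≤ x

/-- The barycentric subdivision: all chains of nonempty faces of `L`. -/
def sd {N : ℕ} (L : Cplx N) : Finset (Finset (Finset (Fin N))) := orderComplex (L.faces.erase ∅)

/-- `h(X, x) = ∑ f_{i-1}(X) x^i (1-x)^{n-i}`, written as a sum over all faces. -/
noncomputable def hPoly {P : Type} (n : ℕ) (X : Finset (Finset P)) : Polynomial ℝ :=
  ∑ σ ∈ X, Polynomial.X ^ σ.card * (1 - Polynomial.X) ^ (n - σ.card)

section homology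

variable {P : Type} [Fintype P] [DecidableEq P] [PartialOrder P]

/-- The link of `σ`. -/
def link (X : Finset (Finset P)) (σ : Finset P) : Finset (Finset P) :=
  X.filter fun τ => τ ∪ σ ∈ X ∧ Disjoint τ σ

/-- The sign `(-1)^{#{w ∈ ρ : w < v}}`. When `ρ ∪ {v}` is a chain this is the sign of the position
of `v` in it. -/
noncomputable def sgn (k : Type) [Field k] (ρ : Finset P) (v : P) : k := by
  classical exact (-1) ^ (ρ.filter fun w => w < v).card

/-- Chains over `k`: functions supported on the faces with `s` elements. -/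
def chains (k : Type) [Field k] (X : Finset (Finset P)) (s : ℕ) : Submodule k (Finset P → k) where
  carrier := {c | ∀ σ, c σ ≠ 0 → σ ∈ X ∧ σ.card = s}
  add_mem' := by
    intro a b ha hb σ h
    by_cases h1 : a σ = 0
    · apply hb
      intro h2
      apply h
      simp [h1, h2]
    · exact ha σ h1
  zero_mem' := by
    intro σ h
    exact absurd rfl h
  smul_mem' := by
    intro r c hc σ h
    apply hc
    intro h1
    apply h
    simp [h1]

/-- The simplicial boundary map, for complexes whose faces are chains of the poset `P` (each face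
oriented by its order): the coefficient of `∂c` at `ρ` is the signed sum of the coefficients of `c`
at the sets `ρ ∪ {v}`. The empty face is included, so this computes reduced homology. -/
noncomputable def bd (k : Type) [Field k] : (Finset P → k) →ₗ[k] (Finset P → k) where
  toFun c ρ := ∑ v ∈ ρᶜ, sgn k ρ v * c (insert v ρ)
  map_add' := by
    intro a b
    funext ρ
    simp [Finset.sum_add_distrib, mul_add]
  map_smul' := by
    intro r c
    funext ρ
    simp only [Pi.smul_apply, smul_eq_mul, RingHom.id_apply, Finset.mul_sum]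
    apply Finset.sum_congr rfl
    intro v _
    ring

/-- Cycles supported on the faces with `s` elements. -/
noncomputable def cycles (k : Type) [Field k] (X : Finset (Finset P)) (s : ℕ) :
    Submodule k (Finset P → k) :=
  chains k X s ⊓ LinearMap.ker (bd k)

/-- Boundaries supported on the faces with `s` elements. -/
noncomputable def boundaries (k : Type) [Field k] (X : Finset (Finset P)) (s : ℕ) :
    Submodule k (Finset P → k) :=
  (chains k X (s + 1)).map (bd k)

/-- A complex `X` of chains of `P` is Cohen–Macaulay of dimension `d - 1` over `k` (Reisner's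
criterion): its dimension is `d - 1` and, for every face `σ` (`σ = ∅` included), the reduced
homology over `k` of the link of `σ` vanishes in all dimensions `s - 1 < d - 1 - |σ|`. -/
def IsCM (k : Type) [Field k] (d : ℕ) (X : Finset (Finset P)) : Prop :=
  (∃ σ ∈ X, σ.card = d) ∧ (∀ σ ∈ X, σ.card ≤ d) ∧
  ∀ σ ∈ X, ∀ s, s + σ.card < d → cycles k (link X σ) s ≤ boundaries k (link X σ) s

end homology

/-- `L` is Cohen–Macaulay* of dimension `n - 1` over `k`. -/
def IsCMStar (k : Type) [Field k] {N : ℕ} (n : ℕ) (L : Cplx N) : Prop :=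
  IsCM k n (sd L) ∧ ∀ F, ∀ hF : IsFacet L F, IsCM k n (sd (delFacet L F hF))

/-- `p = a + x b` is the symmetric decomposition of `p` with respect to `n` (`n ≥ 1`). -/
def IsSymDec (n : ℕ) (p a b : Polynomial ℝ) : Prop :=
  p = a + Polynomial.X * b ∧
  (a.natDegree ≤ n ∧ ∀ i ≤ n, a.coeff i = a.coeff (n - i)) ∧
  (b.natDegree ≤ n - 1 ∧ ∀ i ≤ n - 1, b.coeff i = b.coeff (n - 1 - i))

/-- All coefficients are nonnegative. -/
def Nonneg (p : Polynomial ℝ) : Prop := ∀ i, 0 ≤ p.coeff i

/-- `p` is zero or has only real roots. -/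
def RealRooted (p : Polynomial ℝ) : Prop :=
  p = 0 ∨ ∀ z : ℂ, Polynomial.aeval z p = 0 → z.im = 0

/-- `b` interlaces `a`: either one of them is zero or, the roots being listed with multiplicity in
decreasing order, `… ≤ β₂ ≤ α₂ ≤ β₁ ≤ α₁`. -/
def Interlaces (b a : Polynomial ℝ) : Prop :=
  b = 0 ∨ a = 0 ∨
    let β := b.roots.sort (· ≥ ·)
    let α := a.roots.sort (· ≥ ·)
    (∀ i, ∀ h : i < β.length, ∀ h' : i < α.length, β[i] ≤ α[i]) ∧
    (∀ i, ∀ h : i < β.length, ∀ h' : i + 1 < α.length, α[i + 1] ≤ β[i])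

/-! ### Two lemmas on acyclicity -/

section acyclic

variable {P : Type} [Fintype P] [DecidableEq P] [PartialOrder P] {k : Type} [Field k]

theorem mem_chains {X : Finset (Finset P)} {s : ℕ} {c : Finset P → k} :
    c ∈ chains k X s ↔ ∀ σ, c σ ≠ 0 → σ ∈ X ∧ σ.card = s := Iff.rfl

theorem mem_cycles {X : Finset (Finset P)} {s : ℕ} {c : Finset P → k} :
    c ∈ cycles k X s ↔ c ∈ chains k X s ∧ bd k c = 0 := by
  simp [cycles, LinearMap.mem_ker]

theorem mem_boundaries {X : Finset (Finset P)} {s : ℕ} {c : Finset P → k} :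
    c ∈ boundaries k X s ↔ ∃ b ∈ chains k X (s + 1), bd k b = c := by
  simp [boundaries, Submodule.mem_map]

theorem bd_apply (c : Finset P → k) (ρ : Finset P) :
    bd k c ρ = ∑ v ∈ ρᶜ, sgn k ρ v * c (insert v ρ) := rfl

theorem sgn_mul_self (ρ : Finset P) (v : P) : sgn k ρ v * sgn k ρ v = 1 := by
  unfold sgn
  rw [← mul_pow]
  simp

theorem sgn_insert_lt {ρ : Finset P} {v w : P} (hv : v ∉ ρ) (h : v < w) :
    sgn k (insert v ρ) w = - sgn k ρ w := by
  classical
  unfold sgn
  rw [Finset.filter_insert, if_pos h, Finset.card_insert_of_notMem (by simp [hv]), pow_succ]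
  ring

theorem sgn_insert_not_lt {ρ : Finset P} {v w : P} (h : ¬ v < w) :
    sgn k (insert v ρ) w = sgn k ρ w := by
  classical
  unfold sgn
  rw [Finset.filter_insert, if_neg h]

theorem sgn_swap {ρ : Finset P} {v w : P} (hv : v ∉ ρ) (hw : w ∉ ρ) (hvw : v ≠ w)
    (h : v ≤ w ∨ w ≤ v) :
    sgn k (insert v ρ) w = - (sgn k ρ v * (sgn k ρ w * sgn k (insert w ρ) v)) := by
  have h1 := sgn_mul_self (k := k) ρ v
  rcases h with h | h
  · have hlt : v < w := lt_of_le_of_ne h hvw
    rw [sgn_insert_lt hv hlt, sgn_insert_not_lt hlt.asymm]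
    linear_combination (sgn k ρ w) * h1
  · have hlt : w < v := lt_of_le_of_ne h hvw.symm
    rw [sgn_insert_lt hw hlt, sgn_insert_not_lt hlt.asymm]
    linear_combination -(sgn k ρ w) * h1

/-- the part of `c` on the sets containing `v`, with `v` removed (with sign) -/
noncomputable def lp (v : P) (c : Finset P → k) : Finset P → k :=
  fun τ => if v ∈ τ then 0 else sgn k τ v * c (insert v τ)

/-- the part of `c` on the sets not containing `v` -/
def dp (v : P) (c : Finset P → k) : Finset P → k :=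
  fun τ => if v ∈ τ then 0 else c τ

/-- the cone with apex `v` over `e` -/
noncomputable def cone (v : P) (e : Finset P → k) : Finset P → k :=
  fun τ => if v ∈ τ then sgn k (τ.erase v) v * e (τ.erase v) else 0

/-- `c` is supported on chains of the poset -/
def OnChains (c : Finset P → k) : Prop :=
  ∀ σ, c σ ≠ 0 → ∀ x ∈ σ, ∀ y ∈ σ, x ≤ y ∨ y ≤ x

theorem bd_mem {v : P} {ρ : Finset P} (h : v ∈ ρ) {c : Finset P → k} (hc : OnChains c) :
    bd k c ρ = - (sgn k (ρ.erase v) v * bd k (lp v c) (ρ.erase v)) := by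
  rw [bd_apply, bd_apply]
  have h1 : (ρ.erase v)ᶜ = insert v ρᶜ := by
    ext x
    by_cases hx : x = v
    · simp [hx]
    · simp [hx]
  rw [h1, Finset.sum_insert (by simpa using h)]
  have h2 : lp v c (insert v (ρ.erase v)) = 0 := by simp [lp]
  rw [h2, mul_zero, zero_add, Finset.mul_sum, ← Finset.sum_neg_distrib]
  apply Finset.sum_congr rfl
  intro w hw
  have hw' : w ∉ ρ := by simpa using hw
  have hwv : v ≠ w := by rintro rfl; exact hw' h
  have h3 : v ∉ insert w (ρ.erase v) := by simp [hwv]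
  have h4 : insert v (insert w (ρ.erase v)) = insert w ρ := by
    rw [Finset.insert_comm, Finset.insert_erase h]
  simp only [lp, h3, if_false, h4]
  by_cases h5 : c (insert w ρ) = 0
  · simp [h5]
  · have h6 := hc _ h5 v (Finset.mem_insert_of_mem h) w (Finset.mem_insert_self _ _)
    have h7 := sgn_swap (k := k) (ρ := ρ.erase v) (by simp) (fun h8 => hw' (Finset.mem_of_mem_erase h8))
      hwv h6
    rw [Finset.insert_erase h] at h7
    rw [h7]
    ring

theorem bd_not_mem {v : P} {ρ : Finset P} (h : v ∉ ρ) (c : Finset P → k) :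
    bd k c ρ = bd k (dp v c) ρ + lp v c ρ := by
  rw [bd_apply, bd_apply]
  have hv : v ∈ ρᶜ := by simpa using h
  rw [← Finset.add_sum_erase _ _ hv,
    ← Finset.add_sum_erase _ (fun w => sgn k ρ w * dp v c (insert w ρ)) hv]
  have h1 : dp v c (insert v ρ) = 0 := by simp [dp]
  have h2 : lp v c ρ = sgn k ρ v * c (insert v ρ) := by simp [lp, h]
  rw [h1, h2, mul_zero, zero_add, add_comm]
  congr 1
  apply Finset.sum_congr rfl
  intro w hw
  have hwv : v ≠ w := by
    rintro rfl
    simp at hw
  have h3 : v ∉ insert w ρ := by simp [hwv, h]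
  simp [dp, h3]

theorem lp_cone {v : P} {e : Finset P → k} (he : ∀ τ, v ∈ τ → e τ = 0) :
    lp v (cone v e) = e := by
  funext τ
  by_cases h : v ∈ τ
  · simp [lp, h, he τ h]
  · simp only [lp, cone, h, if_false, Finset.mem_insert_self, if_true, Finset.erase_insert h]
    rw [← mul_assoc, sgn_mul_self, one_mul]

theorem dp_cone {v : P} {e : Finset P → k} : dp v (cone v e) = 0 := by
  funext τ
  by_cases h : v ∈ τ
  · simp [dp, h]
  · simp [dp, cone, h]

theorem mem_oc [DecidableLE P] {Q : Finset P} {T : Finset P} :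
    T ∈ orderComplex Q ↔ T ⊆ Q ∧ ∀ x ∈ T, ∀ y ∈ T, x ≤ y ∨ y ≤ x := by
  simp [orderComplex]

theorem onChains_of [DecidableLE P] {Q : Finset P} {s : ℕ} {c : Finset P → k}
    (hc : c ∈ chains k (orderComplex Q) s) : OnChains c :=
  fun σ h => (mem_oc.1 (hc σ h).1).2

/-- the reduced homology over `k` of the order complex of `Q` vanishes in the dimensions
`< t - 1` -/
def Conn (k : Type) [Field k] [DecidableLE P] (t : ℕ) (Q : Finset P) : Prop :=
  ∀ s < t, cycles k (orderComplex Q) s ≤ boundaries k (orderComplex Q) s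

variable [DecidableLE P]

theorem cone_chain {Q : Finset P} {u : P} (hu : u ∈ Q) {s : ℕ} {e : Finset P → k}
    (he : ∀ σ, e σ ≠ 0 → (σ ∈ orderComplex Q ∧ σ.card = s) ∧ u ∉ σ ∧ ∀ x ∈ σ, x ≤ u ∨ u ≤ x) :
    cone u e ∈ chains k (orderComplex Q) (s + 1) := by
  intro σ h
  by_cases hv : u ∈ σ
  · simp only [cone, hv, if_true] at h
    obtain ⟨⟨h1, h2⟩, h3, h4⟩ := he _ (right_ne_zero_of_mul h)
    rw [mem_oc] at h1
    refine ⟨mem_oc.2 ⟨?_, ?_⟩, ?_⟩
    · intro x hx
      by_cases hxu : x = u
      · rw [hxu]; exact hu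
      · exact h1.1 (Finset.mem_erase.2 ⟨hxu, hx⟩)
    · intro x hx y hy
      by_cases hxu : x = u
      · subst hxu
        by_cases hyu : y = x
        · subst hyu; exact Or.inl le_rfl
        · exact (h4 y (Finset.mem_erase.2 ⟨hyu, hy⟩)).symm
      · by_cases hyu : y = u
        · subst hyu
          exact h4 x (Finset.mem_erase.2 ⟨hxu, hx⟩)
        · exact h1.2 x (Finset.mem_erase.2 ⟨hxu, hx⟩) y (Finset.mem_erase.2 ⟨hyu, hy⟩)
    · rw [Finset.card_erase_of_mem hv] at h2
      have := Finset.card_pos.2 ⟨u, hv⟩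
      omega
  · simp [cone, hv] at h

theorem conn_cone {Q : Finset P} {u : P} (hu : u ∈ Q) (h : ∀ x ∈ Q, x ≤ u ∨ u ≤ x) (t : ℕ) :
    Conn k t Q := by
  intro s _ c hc
  rw [mem_cycles] at hc
  obtain ⟨hc1, hc2⟩ := hc
  have hch := onChains_of hc1
  rw [mem_boundaries]
  have hdv : ∀ τ, u ∈ τ → dp u c τ = 0 := fun τ hτ => by simp [dp, hτ]
  have hb : cone u (dp u c) ∈ chains k (orderComplex Q) (s + 1) := by
    apply cone_chain hu
    intro σ hσ
    by_cases hv : u ∈ σ
    · simp [dp, hv] at hσ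
    · simp only [dp, hv, if_false] at hσ
      have h1 := hc1 σ hσ
      exact ⟨h1, hv, fun x hx => h x ((mem_oc.1 h1.1).1 hx)⟩
  refine ⟨cone u (dp u c), hb, ?_⟩
  funext ρ
  by_cases hv : u ∈ ρ
  · rw [bd_mem hv (onChains_of hb), lp_cone hdv]
    have h1 : bd k c (ρ.erase u) = 0 := by rw [hc2]; rfl
    rw [bd_not_mem (Finset.notMem_erase u ρ)] at h1
    have h2 : lp u c (ρ.erase u) = sgn k (ρ.erase u) u * c ρ := by
      simp [lp, Finset.insert_erase hv]
    rw [h2] at h1
    have h3 := sgn_mul_self (k := k) (ρ.erase u) u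
    linear_combination (c ρ) * h3 - sgn k (ρ.erase u) u * h1
  · rw [bd_not_mem hv, dp_cone, map_zero, lp_cone hdv]
    simp [dp, hv]

/-- elements of `Q` different from and comparable with `v` -/
def nb (Q : Finset P) (v : P) : Finset P := Q.filter fun x => x ≠ v ∧ (x ≤ v ∨ v ≤ x)

theorem conn_remove {Q : Finset P} {v : P} (hv : v ∈ Q) {t : ℕ} (h1 : Conn k (t - 1) (nb Q v))
    (h2 : Conn k t (Q.erase v)) : Conn k t Q := by
  intro s hs c hc
  rw [mem_cycles] at hc
  obtain ⟨hc1, hc2⟩ := hc
  have hch := onChains_of hc1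
  -- e with lp v c = bd e
  have hex : ∃ e : Finset P → k, (∀ σ, e σ ≠ 0 → σ ∈ orderComplex (nb Q v) ∧ σ.card = s) ∧
      bd k e = lp v c := by
    rcases Nat.eq_zero_or_pos s with rfl | hs0
    · refine ⟨0, fun σ h => absurd rfl h, ?_⟩
      rw [map_zero]
      funext τ
      by_cases h : v ∈ τ
      · simp [lp, h]
      · have : c (insert v τ) = 0 := by
          by_contra h3
          have := (hc1 _ h3).2
          simp at this
        simp [lp, h, this]
    · obtain ⟨s', rfl⟩ : ∃ s', s = s' + 1 := ⟨s - 1, by omega⟩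
      have h3 : lp v c ∈ cycles k (orderComplex (nb Q v)) s' := by
        rw [mem_cycles]
        refine ⟨?_, ?_⟩
        · intro σ h
          by_cases hvσ : v ∈ σ
          · simp [lp, hvσ] at h
          · simp only [lp, hvσ, if_false] at h
            obtain ⟨h4, h5⟩ := hc1 _ (right_ne_zero_of_mul h)
            rw [mem_oc] at h4
            rw [Finset.card_insert_of_notMem hvσ] at h5
            refine ⟨mem_oc.2 ⟨?_, ?_⟩, by omega⟩
            · intro x hx
              simp only [nb, Finset.mem_filter]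
              refine ⟨h4.1 (Finset.mem_insert_of_mem hx), fun h => hvσ (h ▸ hx), ?_⟩
              exact h4.2 x (Finset.mem_insert_of_mem hx) v (Finset.mem_insert_self _ _)
            · intro x hx y hy
              exact h4.2 x (Finset.mem_insert_of_mem hx) y (Finset.mem_insert_of_mem hy)
        · funext ρ
          by_cases hvρ : v ∈ ρ
          · rw [bd_apply]
            apply Finset.sum_eq_zero
            intro w _
            simp [lp, hvρ]
          · have h4 := bd_mem (Finset.mem_insert_self v ρ) hch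
            rw [hc2, Finset.erase_insert hvρ] at h4
            have h5 := sgn_mul_self (k := k) ρ v
            have h6 : (0 : Finset P → k) (insert v ρ) = 0 := rfl
            have h7 : (0 : Finset P → k) ρ = 0 := rfl
            rw [h6] at h4
            rw [h7]
            linear_combination (sgn k ρ v) * h4 - (bd k (lp v c) ρ) * h5
      obtain ⟨e, he, hbe⟩ := mem_boundaries.1 (h1 s' (by omega) h3)
      exact ⟨e, he, hbe⟩
  obtain ⟨e, he, hbe⟩ := hex
  have hev : ∀ τ, v ∈ τ → e τ = 0 := by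
    intro τ hτ
    by_contra h3
    have h4 := (mem_oc.1 (he τ h3).1).1 hτ
    simp [nb] at h4
  have hsub : nb Q v ⊆ Q := Finset.filter_subset _ _
  have hb : cone v e ∈ chains k (orderComplex Q) (s + 1) := by
    apply cone_chain hv
    intro σ hσ
    obtain ⟨h3, h4⟩ := he σ hσ
    rw [mem_oc] at h3
    refine ⟨⟨mem_oc.2 ⟨h3.1.trans hsub, h3.2⟩, h4⟩, fun h => hσ (hev σ h), ?_⟩
    intro x hx
    have := h3.1 hx
    simp only [nb, Finset.mem_filter] at this
    exact this.2.2
  -- c' = c + bd b = dp c + e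
  have hc' : c + bd k (cone v e) = dp v c + e := by
    funext ρ
    by_cases hvρ : v ∈ ρ
    · rw [Pi.add_apply, Pi.add_apply, bd_mem hvρ (onChains_of hb), lp_cone hev, hbe, hev ρ hvρ]
      have h3 : lp v c (ρ.erase v) = sgn k (ρ.erase v) v * c ρ := by
        simp [lp, Finset.insert_erase hvρ]
      have h4 : dp v c ρ = 0 := by simp [dp, hvρ]
      have h5 := sgn_mul_self (k := k) (ρ.erase v) v
      rw [h3, h4]
      linear_combination (-(c ρ)) * h5
    · rw [Pi.add_apply, Pi.add_apply, bd_not_mem hvρ (cone v e), dp_cone, map_zero, lp_cone hev]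
      simp [dp, hvρ]
  have hcyc : dp v c + e ∈ cycles k (orderComplex (Q.erase v)) s := by
    rw [mem_cycles]
    refine ⟨?_, ?_⟩
    · intro σ hσ
      have hvσ : v ∉ σ := by
        intro h
        apply hσ
        rw [Pi.add_apply, hev σ h]
        simp [dp, h]
      have h3 : (σ ∈ orderComplex Q ∧ σ.card = s) := by
        by_cases h4 : e σ = 0
        · apply hc1
          intro h5
          apply hσ
          rw [Pi.add_apply, h4]
          simp [dp, h5]
        · obtain ⟨h5, h6⟩ := he σ h4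
          rw [mem_oc] at h5
          exact ⟨mem_oc.2 ⟨h5.1.trans hsub, h5.2⟩, h6⟩
      rw [mem_oc] at h3
      refine ⟨mem_oc.2 ⟨?_, h3.1.2⟩, h3.2⟩
      intro x hx
      exact Finset.mem_erase.2 ⟨fun h => hvσ (h ▸ hx), h3.1.1 hx⟩
    · funext ρ
      by_cases hvρ : v ∈ ρ
      · rw [bd_apply]
        apply Finset.sum_eq_zero
        intro w _
        have h3 : v ∈ insert w ρ := Finset.mem_insert_of_mem hvρ
        rw [Pi.add_apply, hev _ h3]
        simp [dp, hvρ]
      · rw [map_add, Pi.add_apply, hbe]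
        rw [← bd_not_mem hvρ, hc2]
  obtain ⟨f, hf, hbf⟩ := mem_boundaries.1 (h2 s hs hcyc)
  rw [mem_boundaries]
  refine ⟨f - cone v e, ?_, ?_⟩
  · apply Submodule.sub_mem _ _ hb
    intro σ hσ
    obtain ⟨h3, h4⟩ := hf σ hσ
    rw [mem_oc] at h3
    exact ⟨mem_oc.2 ⟨h3.1.trans (Finset.erase_subset _ _), h3.2⟩, h4⟩
  · rw [map_sub, hbf, ← hc']
    simp

theorem link_oc {Q σ : Finset P} (hσ : σ ∈ orderComplex Q) :
    link (orderComplex Q) σ = orderComplex (Q.filter fun x => x ∉ σ ∧ ∀ y ∈ σ, x ≤ y ∨ y ≤ x) := by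
  rw [mem_oc] at hσ
  ext τ
  simp only [link, Finset.mem_filter, mem_oc]
  constructor
  · rintro ⟨⟨h1, h2⟩, ⟨h3, h4⟩, h5⟩
    refine ⟨fun x hx => ?_, h2⟩
    rw [Finset.mem_filter]
    refine ⟨h1 hx, Finset.disjoint_left.1 h5 hx, fun y hy => ?_⟩
    exact h4 x (Finset.mem_union_left _ hx) y (Finset.mem_union_right _ hy)
  · rintro ⟨h1, h2⟩
    have h3 : ∀ x ∈ τ, x ∈ Q ∧ x ∉ σ ∧ ∀ y ∈ σ, x ≤ y ∨ y ≤ x := by
      intro x hx
      have := h1 hx
      rwa [Finset.mem_filter] at this
    refine ⟨⟨fun x hx => (h3 x hx).1, h2⟩, ⟨?_, ?_⟩, ?_⟩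
    · exact Finset.union_subset (fun x hx => (h3 x hx).1) hσ.1
    · intro x hx y hy
      rcases Finset.mem_union.1 hx with hx | hx
      · rcases Finset.mem_union.1 hy with hy | hy
        · exact h2 x hx y hy
        · exact (h3 x hx).2.2 y hy
      · rcases Finset.mem_union.1 hy with hy | hy
        · exact ((h3 y hy).2.2 x hx).symm
        · exact hσ.2 x hx y hy
    · rw [Finset.disjoint_left]
      exact fun x hx => (h3 x hx).2.1

theorem conn_mono {t t' : ℕ} (h : t' ≤ t) {Q : Finset P} (hQ : Conn k t Q) : Conn k t' Q :=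
  fun s hs => hQ s (by omega)

theorem conn_zero (Q : Finset P) : Conn k 0 Q := fun s hs => absurd hs (by omega)

/-- a nonempty `Q` has vanishing reduced homology in dimension `-1` -/
theorem conn_one {Q : Finset P} (hQ : Q.Nonempty) : Conn k 1 Q := by
  obtain ⟨u, hu⟩ := hQ
  intro s hs c hc
  obtain rfl : s = 0 := by omega
  rw [mem_cycles] at hc
  rw [mem_boundaries]
  -- c = c ∅ • indicator of ∅ = bd (c ∅ • indicator {u})
  refine ⟨fun σ => if σ = {u} then c ∅ else 0, ?_, ?_⟩
  · intro σ h
    have : σ = {u} := by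
      by_contra h1
      simp [h1] at h
    subst this
    refine ⟨mem_oc.2 ⟨by simpa using hu, ?_⟩, by simp⟩
    intro x hx y hy
    rw [Finset.mem_singleton] at hx hy
    rw [hx, hy]
    exact Or.inl le_rfl
  · funext ρ
    rw [bd_apply]
    by_cases hρ : ρ = ∅
    · subst hρ
      rw [Finset.sum_eq_single u]
      · simp [sgn]
      · intro w _ hw
        simp [hw]
      · simp
    · have h1 : c ρ = 0 := by
        by_contra h
        exact hρ (Finset.card_eq_zero.1 (hc.1 ρ h).2)
      rw [h1]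
      apply Finset.sum_eq_zero
      intro w hw
      have : insert w ρ ≠ {u} := by
        intro h
        obtain ⟨x, hx⟩ := Finset.nonempty_iff_ne_empty.2 hρ
        have h2 : x = u := by simpa [h] using Finset.mem_insert_of_mem (a := x) (b := w) hx
        have h3 : w = u := by simpa [h] using Finset.mem_insert_self w ρ
        rw [Finset.mem_compl] at hw
        exact hw (by rw [h3, ← h2]; exact hx)
      simp [this]

end acyclic

/-! ### A checker working on bit masks -/

section checker

/-- the subset of `Fin 6` with bit mask `m` -/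
def dec (m : ℕ) : Finset (Fin 6) := Finset.univ.filter fun i => m.testBit i

theorem mem_dec {m : ℕ} {i : Fin 6} : i ∈ dec m ↔ m.testBit i = true := by simp [dec]

theorem dec_le {a b : ℕ} (ha : a < 64) : dec a ≤ dec b ↔ a &&& b = a := by
  constructor
  · intro h
    apply Nat.eq_of_testBit_eq
    intro i
    rw [Nat.testBit_land]
    by_cases hi : i < 6
    · have h1 := @h ⟨i, hi⟩
      rw [mem_dec, mem_dec] at h1
      cases h2 : a.testBit i
      · simp
      · simp only [Bool.true_and]
        exact h1 h2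
    · have : a.testBit i = false := by
        apply Nat.testBit_lt_two_pow
        calc a < 2 ^ 6 := ha
          _ ≤ 2 ^ i := Nat.pow_le_pow_right (by norm_num) (by omega)
      simp [this]
  · intro h i hi
    rw [mem_dec] at hi ⊢
    rw [← h, Nat.testBit_land] at hi
    simp only [Bool.and_eq_true] at hi
    exact hi.2

theorem dec_inj {a b : ℕ} (ha : a < 64) (hb : b < 64) (h : dec a = dec b) : a = b := by
  have h1 := (dec_le ha).1 h.le
  have h2 := (dec_le hb).1 h.ge
  rw [Nat.land_comm] at h2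
  rw [← h1, h2]

/-- comparability of bit masks -/
def cmpB (a b : ℕ) : Bool := (a &&& b == a) || (a &&& b == b)

theorem cmpB_iff {a b : ℕ} (ha : a < 64) (hb : b < 64) :
    cmpB a b = true ↔ (dec a ≤ dec b ∨ dec b ≤ dec a) := by
  rw [dec_le ha, dec_le hb, Nat.land_comm b a]
  simp [cmpB]

/-- the family of sets encoded by a list of bit masks -/
def S (l : List ℕ) : Finset (Finset (Fin 6)) := (l.map dec).toFinset

theorem mem_S {l : List ℕ} {x : Finset (Fin 6)} : x ∈ S l ↔ ∃ a ∈ l, dec a = x := by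
  simp [S]

/-- elements of the list different from and comparable with `v` -/
def nbL (l : List ℕ) (v : ℕ) : List ℕ := l.filter fun x => x != v && cmpB x v

theorem nbL_lt {l : List ℕ} (hl : ∀ a ∈ l, a < 64) (v : ℕ) : ∀ a ∈ nbL l v, a < 64 :=
  fun a ha => hl a (List.mem_of_mem_filter ha)

theorem S_nbL {l : List ℕ} (hl : ∀ a ∈ l, a < 64) {v : ℕ} (hv : v < 64) :
    S (nbL l v) = nb (S l) (dec v) := by
  ext x
  simp only [nb, Finset.mem_filter, mem_S, nbL, List.mem_filter, Bool.and_eq_true, bne_iff_ne]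
  constructor
  · rintro ⟨a, ⟨ha, hav, hc⟩, rfl⟩
    exact ⟨⟨a, ha, rfl⟩, fun h => hav (dec_inj (hl a ha) hv h), (cmpB_iff (hl a ha) hv).1 hc⟩
  · rintro ⟨⟨a, ha, rfl⟩, h1, h2⟩
    exact ⟨a, ⟨ha, fun h => h1 (by rw [h]), (cmpB_iff (hl a ha) hv).2 h2⟩, rfl⟩

/-- connectivity check: grow the connected list `comp` by elements of `rest` -/
def growC : ℕ → List ℕ → List ℕ → Bool
  | _, _, [] => true
  | 0, _, _ :: _ => false
  | n + 1, comp, x :: rest =>
    if comp.any (cmpB x) then growC n (x :: comp) rest else growC n comp (rest ++ [x])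

/-- connectivity check -/
def conn2B (l : List ℕ) : Bool :=
  match l with
  | [] => false
  | x :: r => growC (l.length * l.length) [x] r

/-- check of the vanishing of the reduced homology in dimensions `≤ 1`; the elements are removed
in the order of the list -/
def conn3B : List ℕ → Bool
  | [] => false
  | v :: l => ((v :: l).any fun u => (v :: l).all (cmpB u)) || (conn2B (nbL l v) && conn3B l)

variable {k : Type} [Field k]

theorem S_cons (x : ℕ) (l : List ℕ) : S (x :: l) = insert (dec x) (S l) := by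
  ext y
  simp [S]

theorem conn_cons {t : ℕ} (ht : t ≤ 2) {x : ℕ} {l : List ℕ} (hx : x < 64)
    (hl : ∀ a ∈ l, a < 64) (h : l.any (cmpB x) = true) (hc : Conn k t (S l)) :
    Conn k t (S (x :: l)) := by
  rw [S_cons]
  by_cases hm : dec x ∈ S l
  · rw [Finset.insert_eq_of_mem hm]
    exact hc
  · apply conn_remove (v := dec x) (Finset.mem_insert_self _ _)
    · apply conn_mono (t := 1) (by omega)
      apply conn_one
      rw [List.any_eq_true] at h
      obtain ⟨a, ha, hxa⟩ := h
      refine ⟨dec a, ?_⟩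
      simp only [nb, Finset.mem_filter]
      have h1 : dec a ∈ S l := mem_S.2 ⟨a, ha, rfl⟩
      refine ⟨Finset.mem_insert_of_mem h1, fun h2 => hm (h2 ▸ h1), ?_⟩
      exact ((cmpB_iff hx (hl a ha)).1 hxa).symm
    · rw [Finset.erase_insert hm]
      exact hc

theorem growC_sound : ∀ (n : ℕ) (comp rest : List ℕ), (∀ a ∈ comp, a < 64) →
    (∀ a ∈ rest, a < 64) → Conn k 2 (S comp) → growC n comp rest = true →
    Conn k 2 (S (rest ++ comp)) := by
  intro n
  induction n with
  | zero =>
    intro comp rest h1 h2 h3 h4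
    cases rest with
    | nil => simpa using h3
    | cons x rest => simp [growC] at h4
  | succ n ih =>
    intro comp rest h1 h2 h3 h4
    cases rest with
    | nil => simpa using h3
    | cons x rest =>
      have hx : x < 64 := h2 x (by simp)
      have hr : ∀ a ∈ rest, a < 64 := fun a ha => h2 a (by simp [ha])
      simp only [growC] at h4
      split_ifs at h4 with h5
      · have h6 := ih (x :: comp) rest (by
          intro a ha
          rcases List.mem_cons.1 ha with rfl | ha
          · exact hx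
          · exact h1 a ha) hr (conn_cons le_rfl hx h1 h5 h3) h4
        have h7 : S (rest ++ x :: comp) = S (x :: rest ++ comp) := by
          ext y
          simp only [mem_S, List.mem_append, List.mem_cons]
          constructor
          · rintro ⟨a, h | h | h, rfl⟩
            · exact ⟨a, Or.inl (Or.inr h), rfl⟩
            · exact ⟨a, Or.inl (Or.inl h), rfl⟩
            · exact ⟨a, Or.inr h, rfl⟩
          · rintro ⟨a, (h | h) | h, rfl⟩
            · exact ⟨a, Or.inr (Or.inl h), rfl⟩
            · exact ⟨a, Or.inl h, rfl⟩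
            · exact ⟨a, Or.inr (Or.inr h), rfl⟩
        rw [← h7]
        exact h6
      · have h6 := ih comp (rest ++ [x]) h1 (by
          intro a ha
          rcases List.mem_append.1 ha with ha | ha
          · exact hr a ha
          · rw [List.mem_singleton.1 ha]; exact hx) h3 h4
        have h7 : S (rest ++ [x] ++ comp) = S (x :: rest ++ comp) := by
          ext y
          simp only [mem_S, List.mem_append, List.mem_cons, List.not_mem_nil, or_false]
          constructor
          · rintro ⟨a, (h | h) | h, rfl⟩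
            · exact ⟨a, Or.inl (Or.inr h), rfl⟩
            · exact ⟨a, Or.inl (Or.inl h), rfl⟩
            · exact ⟨a, Or.inr h, rfl⟩
          · rintro ⟨a, (h | h) | h, rfl⟩
            · exact ⟨a, Or.inl (Or.inr h), rfl⟩
            · exact ⟨a, Or.inl (Or.inl h), rfl⟩
            · exact ⟨a, Or.inr h, rfl⟩
        rw [← h7]
        exact h6

theorem conn2B_sound {l : List ℕ} (hl : ∀ a ∈ l, a < 64) (h : conn2B l = true) :
    Conn k 2 (S l) := by
  cases l with
  | nil => simp [conn2B] at h
  | cons x r =>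
    simp only [conn2B] at h
    have hx : x < 64 := hl x (by simp)
    have h1 : Conn k 2 (S [x]) := by
      apply conn_cone (u := dec x) (mem_S.2 ⟨x, by simp, rfl⟩)
      intro y hy
      obtain ⟨a, ha, rfl⟩ := mem_S.1 hy
      rw [List.mem_singleton.1 ha]
      exact Or.inl le_rfl
    have h2 := growC_sound _ [x] r (by simpa using hx) (fun a ha => hl a (by simp [ha])) h1 h
    have h3 : S (r ++ [x]) = S (x :: r) := by
      ext y
      simp only [mem_S, List.mem_append, List.mem_cons, List.not_mem_nil, or_false]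
      constructor
      · rintro ⟨a, h | h, rfl⟩
        · exact ⟨a, Or.inr h, rfl⟩
        · exact ⟨a, Or.inl h, rfl⟩
      · rintro ⟨a, h | h, rfl⟩
        · exact ⟨a, Or.inr h, rfl⟩
        · exact ⟨a, Or.inl h, rfl⟩
    rwa [h3] at h2

theorem conn3B_sound : ∀ {l : List ℕ}, (∀ a ∈ l, a < 64) → l.Nodup → conn3B l = true →
    Conn k 3 (S l) := by
  intro l
  induction l with
  | nil => intro _ _ h; simp [conn3B] at h
  | cons v l ih =>
    intro hl hn h
    have hv : v < 64 := hl v (by simp)
    have hl' : ∀ a ∈ l, a < 64 := fun a ha => hl a (by simp [ha])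
    rw [List.nodup_cons] at hn
    simp only [conn3B, Bool.or_eq_true, Bool.and_eq_true] at h
    rcases h with h | ⟨h1, h2⟩
    · rw [List.any_eq_true] at h
      obtain ⟨u, hu, h⟩ := h
      rw [List.all_eq_true] at h
      apply conn_cone (u := dec u) (mem_S.2 ⟨u, hu, rfl⟩)
      intro y hy
      obtain ⟨a, ha, rfl⟩ := mem_S.1 hy
      exact ((cmpB_iff (hl u hu) (hl a ha)).1 (h a ha)).symm
    · have hm : dec v ∉ S l := by
        intro h
        obtain ⟨a, ha, hav⟩ := mem_S.1 h
        rw [dec_inj (hl' a ha) hv hav] at ha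
        exact hn.1 ha
      rw [S_cons]
      apply conn_remove (v := dec v) (Finset.mem_insert_self _ _)
      · have h3 : nb (insert (dec v) (S l)) (dec v) = S (nbL l v) := by
          rw [S_nbL hl' hv]
          ext x
          simp only [nb, Finset.mem_filter, Finset.mem_insert]
          constructor
          · rintro ⟨h | h, h1, h2⟩
            · exact absurd h h1
            · exact ⟨h, h1, h2⟩
          · rintro ⟨h, h1, h2⟩
            exact ⟨Or.inr h, h1, h2⟩
        rw [h3]
        exact conn2B_sound (nbL_lt hl' v) h1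
      · rw [Finset.erase_insert hm]
        exact ih hl' hn.2 h2

/-- the complete check for the order complex of the family encoded by `l` -/
def cmB (l : List ℕ) : Bool :=
  conn3B l && (l.all fun v => conn2B (nbL l v)) &&
    (l.all fun v => (nbL l v).all fun w => !(nbL (nbL l v) w).isEmpty)

theorem chain_card_le {Q T : Finset (Finset (Fin 6))}
    (hQ : ∀ x ∈ Q, 1 ≤ x.card ∧ x.card ≤ 3) (hT : T ∈ orderComplex Q) : T.card ≤ 3 := by
  rw [mem_oc] at hT
  have h1 : T.card ≤ (Finset.Icc 1 3).card := by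
    apply Finset.card_le_card_of_injOn Finset.card
    · intro x hx
      simp only [Finset.coe_Icc, Set.mem_Icc]
      exact hQ x (hT.1 hx)
    · intro x hx y hy hxy
      rcases hT.2 x hx y hy with h | h
      · exact Finset.eq_of_subset_of_card_le h hxy.ge
      · exact (Finset.eq_of_subset_of_card_le h hxy.le).symm
  simpa using h1

theorem cm_of_check {l : List ℕ} (hl : ∀ a ∈ l, a < 64) (hn : l.Nodup)
    (hQ : ∀ x ∈ S l, 1 ≤ x.card ∧ x.card ≤ 3) (h3 : ∃ σ ∈ orderComplex (S l), σ.card = 3)
    (h : cmB l = true) : IsCM k 3 (orderComplex (S l)) := by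
  simp only [cmB, Bool.and_eq_true] at h
  obtain ⟨⟨c1, c2⟩, c3⟩ := h
  refine ⟨h3, fun σ hσ => chain_card_le hQ hσ, ?_⟩
  intro σ hσ s hs
  rw [link_oc hσ]
  have hσ' := mem_oc.1 hσ
  obtain h0 | h0 | h0 : σ.card = 0 ∨ σ.card = 1 ∨ σ.card = 2 := by omega
  · rw [Finset.card_eq_zero] at h0
    subst h0
    have : (S l).filter (fun x => x ∉ (∅ : Finset (Finset (Fin 6))) ∧ ∀ y ∈ (∅ : Finset (Finset (Fin 6))),
        x ≤ y ∨ y ≤ x) = S l := by
      apply Finset.filter_true_of_mem
      intro x _
      simp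
    rw [this]
    apply conn3B_sound hl hn c1
    simpa using hs
  · obtain ⟨v, rfl⟩ := Finset.card_eq_one.1 h0
    obtain ⟨a, ha, rfl⟩ := mem_S.1 (hσ'.1 (Finset.mem_singleton_self _))
    have : (S l).filter (fun x => x ∉ ({dec a} : Finset (Finset (Fin 6))) ∧
        ∀ y ∈ ({dec a} : Finset (Finset (Fin 6))), x ≤ y ∨ y ≤ x) = nb (S l) (dec a) := by
      ext x
      simp [nb]
    rw [this, ← S_nbL hl (hl a ha)]
    rw [List.all_eq_true] at c2
    apply conn2B_sound (nbL_lt hl a) (c2 a ha)
    simp at hs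
    omega
  · obtain ⟨v, w, hvw, rfl⟩ := Finset.card_eq_two.1 h0
    obtain ⟨a, ha, rfl⟩ := mem_S.1 (hσ'.1 (Finset.mem_insert_self _ _))
    obtain ⟨b, hb, rfl⟩ := mem_S.1 (hσ'.1 (Finset.mem_insert_of_mem (Finset.mem_singleton_self _)))
    have hs0 : s = 0 := by omega
    subst hs0
    refine conn_one ?_ 0 (by omega)
    rw [List.all_eq_true] at c3
    have h4 := c3 a ha
    rw [List.all_eq_true] at h4
    have hab : b ≠ a := fun h => hvw (by rw [h])
    have h5 : b ∈ nbL l a := by
      simp only [nbL, List.mem_filter, Bool.and_eq_true, bne_iff_ne]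
      refine ⟨hb, hab, (cmpB_iff (hl b hb) (hl a ha)).2 ?_⟩
      exact hσ'.2 _ (Finset.mem_insert_of_mem (Finset.mem_singleton_self _)) _
        (Finset.mem_insert_self _ _)
    have h6 := h4 b h5
    have h7 : nbL (nbL l a) b ≠ [] := by
      intro h
      simp [h] at h6
    obtain ⟨c, hc⟩ := List.exists_mem_of_ne_nil _ h7
    refine ⟨dec c, ?_⟩
    simp only [nbL, List.mem_filter, Bool.and_eq_true, bne_iff_ne] at hc
    obtain ⟨⟨hc1, hc2, hc3⟩, hc4, hc5⟩ := hc
    rw [Finset.mem_filter]
    refine ⟨mem_S.2 ⟨c, hc1, rfl⟩, ?_, ?_⟩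
    · rw [Finset.mem_insert, Finset.mem_singleton, not_or]
      exact ⟨fun h => hc2 (dec_inj (hl c hc1) (hl a ha) h),
        fun h => hc4 (dec_inj (hl c hc1) (hl b hb) h)⟩
    · intro y hy
      rw [Finset.mem_insert, Finset.mem_singleton] at hy
      rcases hy with rfl | rfl
      · exact (cmpB_iff (hl c hc1) (hl a ha)).1 hc3
      · exact (cmpB_iff (hl c hc1) (hl b hb)).1 hc5

end checker

/-! ### The example -/

section exm

/-- The complex: all subsets of ten triangles on the vertex set `{0, …, 5}`. -/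
def ex : Cplx 6 where
  faces := Finset.univ.filter fun σ => σ ⊆ {0, 1, 2} ∨ σ ⊆ {0, 2, 3} ∨ σ ⊆ {0, 1, 3} ∨
    σ ⊆ {0, 1, 4} ∨ σ ⊆ {0, 4, 5} ∨ σ ⊆ {0, 1, 5} ∨ σ ⊆ {1, 2, 5} ∨ σ ⊆ {2, 4, 5} ∨
    σ ⊆ {2, 3, 4} ∨ σ ⊆ {1, 3, 4}
  empty_mem := by simp
  down := by
    intro σ hσ τ hτ
    simp only [Finset.mem_filter, Finset.mem_univ, true_and] at hσ ⊢
    rcases hσ with h | h | h | h | h | h | h | h | h | h
    · exact Or.inl (hτ.trans h)
    · exact Or.inr (Or.inl (hτ.trans h))
    · exact Or.inr (Or.inr (Or.inl (hτ.trans h)))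
    · exact Or.inr (Or.inr (Or.inr (Or.inl (hτ.trans h))))
    · exact Or.inr (Or.inr (Or.inr (Or.inr (Or.inl (hτ.trans h)))))
    · exact Or.inr (Or.inr (Or.inr (Or.inr (Or.inr (Or.inl (hτ.trans h))))))
    · exact Or.inr (Or.inr (Or.inr (Or.inr (Or.inr (Or.inr (Or.inl (hτ.trans h)))))))
    · exact Or.inr (Or.inr (Or.inr (Or.inr (Or.inr (Or.inr (Or.inr (Or.inl (hτ.trans h))))))))
    · exact Or.inr (Or.inr (Or.inr (Or.inr (Or.inr (Or.inr (Or.inr (Or.inr
        (Or.inl (hτ.trans h)))))))))
    · exact Or.inr (Or.inr (Or.inr (Or.inr (Or.inr (Or.inr (Or.inr (Or.inr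
        (Or.inr (hτ.trans h)))))))))

/-- the masks of the ten triangles -/
def triL : List ℕ := [7, 13, 11, 19, 49, 35, 38, 52, 28, 26]

/-- the masks of the 30 nonempty faces -/
def l0 : List ℕ := [7, 5, 6, 13, 9, 12, 4, 20, 28, 24, 8, 10, 11, 26, 18, 36, 38, 34, 2, 3, 19, 17,
  1, 35, 33, 16, 32, 48, 49, 52]

/-- for each triangle the masks of the other faces, in a suitable order -/
def lOf : ℕ → List ℕ
  | 7 => [5, 6, 13, 9, 12, 4, 20, 28, 24, 8, 10, 11, 26, 18, 36, 38, 34, 2, 3, 19, 17, 1, 35, 33, 16, 32, 48, 49, 52]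
  | 13 => [5, 9, 12, 7, 6, 4, 20, 28, 24, 8, 10, 11, 26, 18, 36, 38, 34, 2, 3, 19, 17, 1, 35, 33, 16, 32, 48, 49, 52]
  | 11 => [9, 10, 8, 12, 13, 5, 24, 26, 18, 28, 20, 4, 6, 7, 36, 38, 34, 2, 3, 19, 17, 1, 35, 33, 16, 32, 48, 49, 52]
  | 19 => [17, 18, 26, 10, 24, 8, 9, 11, 12, 13, 5, 28, 20, 16, 48, 49, 33, 1, 3, 7, 6, 2, 35, 34, 4, 32, 36, 38, 52]
  | 49 => [17, 33, 48, 19, 18, 16, 20, 24, 26, 10, 28, 12, 8, 9, 11, 13, 5, 1, 3, 7, 6, 2, 35, 34, 4, 32, 36, 38, 52]
  | 35 => [33, 34, 32, 36, 38, 6, 48, 49, 17, 52, 20, 4, 5, 7, 12, 13, 9, 1, 3, 11, 10, 2, 19, 18, 8, 16, 24, 26, 28]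
  | 38 => [6, 34, 36, 7, 5, 4, 12, 13, 9, 20, 28, 24, 8, 10, 11, 26, 18, 2, 3, 19, 17, 1, 35, 33, 16, 32, 48, 49, 52]
  | 52 => [20, 36, 48, 28, 12, 24, 4, 5, 6, 7, 13, 9, 8, 10, 11, 26, 18, 16, 17, 19, 3, 1, 49, 33, 2, 32, 34, 35, 38]
  | 28 => [12, 20, 24, 8, 9, 10, 11, 13, 5, 26, 18, 4, 6, 7, 36, 38, 34, 2, 3, 19, 17, 1, 35, 33, 16, 32, 48, 49, 52]
  | _ => [10, 18, 24, 8, 9, 11, 12, 13, 5, 28, 20, 4, 6, 7, 36, 38, 34, 2, 3, 19, 17, 1, 35, 33, 16, 32, 48, 49, 52]

theorem l0_lt : ∀ a ∈ l0, a < 64 := by decide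

theorem l0_nodup : l0.Nodup := by decide

theorem check0 : cmB l0 = true := by decide +kernel

theorem checkL : ∀ m ∈ triL, (l0.erase m).Perm (lOf m) ∧ cmB (lOf m) = true := by decide +kernel

theorem ex_faces : ex.faces.erase ∅ = S l0 := by decide +kernel

theorem S_perm {l l' : List ℕ} (h : l.Perm l') : S l = S l' := by
  ext x
  rw [mem_S, mem_S]
  constructor
  · rintro ⟨a, ha, rfl⟩
    exact ⟨a, h.mem_iff.1 ha, rfl⟩
  · rintro ⟨a, ha, rfl⟩
    exact ⟨a, h.mem_iff.2 ha, rfl⟩

theorem S_erase {l : List ℕ} (hl : ∀ a ∈ l, a < 64) (hn : l.Nodup) {m : ℕ} (hm : m < 64) :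
    S (l.erase m) = (S l).erase (dec m) := by
  ext x
  rw [mem_S, Finset.mem_erase, mem_S]
  constructor
  · rintro ⟨a, ha, rfl⟩
    rw [hn.mem_erase_iff] at ha
    exact ⟨fun h => ha.1 (dec_inj (hl a ha.2) hm h), a, ha.2, rfl⟩
  · rintro ⟨h, a, ha, rfl⟩
    exact ⟨a, hn.mem_erase_iff.2 ⟨fun h1 => h (by rw [h1]), ha⟩, rfl⟩

theorem facet_mem {F : Finset (Fin 6)} (hF : IsFacet ex F) : ∃ m ∈ triL, F = dec m := by
  have h1 : F ∈ S l0 := by
    rw [← ex_faces, Finset.mem_erase]
    exact ⟨hF.2.1.ne_empty, hF.1⟩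
  obtain ⟨a, ha, rfl⟩ := mem_S.1 h1
  have key : ∀ a ∈ l0, a ∈ triL ∨ ∃ b ∈ l0, a &&& b = a ∧ b ≠ a := by decide
  rcases key a ha with h | ⟨b, hb, hab, hne⟩
  · exact ⟨a, h, rfl⟩
  · exfalso
    have h2 : dec a ≤ dec b := (dec_le (l0_lt a ha)).2 hab
    have h3 : dec b ∈ ex.faces := by
      have : dec b ∈ S l0 := mem_S.2 ⟨b, hb, rfl⟩
      rw [← ex_faces] at this
      exact Finset.mem_of_mem_erase this
    have h4 := hF.2.2 _ h3 h2
    exact hne (dec_inj (l0_lt b hb) (l0_lt a ha) h4)

theorem triL_sub : ∀ m ∈ triL, m < 64 := by decide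

theorem card_S0 : ∀ x ∈ S l0, 1 ≤ x.card ∧ x.card ≤ 3 := by decide +kernel

theorem exists_chain {l : List ℕ} (a b c : ℕ) (h : [a, b, c] ⊆ l) (hl : ∀ a ∈ l, a < 64)
    (hab : a &&& b = a) (hbc : b &&& c = b) (h1 : a ≠ b) (h2 : b ≠ c) (h3 : a ≠ c) :
    ∃ σ ∈ orderComplex (S l), σ.card = 3 := by
  have ha : a ∈ l := h (by simp)
  have hb : b ∈ l := h (by simp)
  have hc : c ∈ l := h (by simp)
  have e1 : dec a ≤ dec b := (dec_le (hl a ha)).2 hab
  have e2 : dec b ≤ dec c := (dec_le (hl b hb)).2 hbc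
  refine ⟨{dec a, dec b, dec c}, mem_oc.2 ⟨?_, ?_⟩, ?_⟩
  · intro x hx
    simp only [Finset.mem_insert, Finset.mem_singleton] at hx
    rcases hx with rfl | rfl | rfl
    · exact mem_S.2 ⟨a, ha, rfl⟩
    · exact mem_S.2 ⟨b, hb, rfl⟩
    · exact mem_S.2 ⟨c, hc, rfl⟩
  · intro x hx y hy
    simp only [Finset.mem_insert, Finset.mem_singleton] at hx hy
    rcases hx with rfl | rfl | rfl <;> rcases hy with rfl | rfl | rfl
    · exact Or.inl le_rfl
    · exact Or.inl e1
    · exact Or.inl (e1.trans e2)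
    · exact Or.inr e1
    · exact Or.inl le_rfl
    · exact Or.inl e2
    · exact Or.inr (e1.trans e2)
    · exact Or.inr e2
    · exact Or.inl le_rfl
  · rw [Finset.card_eq_three]
    refine ⟨_, _, _, ?_, ?_, ?_, rfl⟩
    · exact fun h => h1 (dec_inj (hl a ha) (hl b hb) h)
    · exact fun h => h3 (dec_inj (hl a ha) (hl c hc) h)
    · exact fun h => h2 (dec_inj (hl b hb) (hl c hc) h)

theorem cmStar (k : Type) [Field k] : IsCMStar k 3 ex := by
  refine ⟨?_, ?_⟩
  · unfold sd
    rw [ex_faces]
    exact cm_of_check l0_lt l0_nodup card_S0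
      (exists_chain 1 3 7 (by decide) l0_lt (by decide) (by decide) (by decide) (by decide)
        (by decide)) check0
  · intro F hF
    obtain ⟨m, hm, rfl⟩ := facet_mem hF
    obtain ⟨h1, h2⟩ := checkL m hm
    have h3 : (delFacet ex (dec m) hF).faces.erase ∅ = S (lOf m) := by
      rw [← S_perm h1, S_erase l0_lt l0_nodup (triL_sub m hm), ← ex_faces]
      simp only [delFacet]
      rw [Finset.erase_right_comm]
    unfold sd
    rw [h3]
    have hlt : ∀ a ∈ lOf m, a < 64 := fun a ha =>
      l0_lt a (List.mem_of_mem_erase (h1.mem_iff.2 ha))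
    refine cm_of_check hlt ((l0_nodup.erase m).perm h1) ?_ ?_ h2
    · intro x hx
      rw [← S_perm h1, S_erase l0_lt l0_nodup (triL_sub m hm)] at hx
      exact card_S0 x (Finset.mem_of_mem_erase hx)
    · by_cases hm7 : m = 7
      · subst hm7
        exact exists_chain 1 5 13 (by decide) hlt (by decide) (by decide) (by decide) (by decide)
          (by decide)
      · refine exists_chain 1 3 7 ?_ hlt (by decide) (by decide) (by decide) (by decide)
          (by decide)
        have key : ∀ m ∈ triL, m ≠ 7 → [1, 3, 7] ⊆ lOf m := by decide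
        exact key m hm hm7


/-- the masks of the nonempty faces as elements of `Fin 64` -/
def l64 : List (Fin 64) := [7, 5, 6, 13, 9, 12, 4, 20, 28, 24, 8, 10, 11, 26, 18, 36, 38, 34, 2, 3,
  19, 17, 1, 35, 33, 16, 32, 48, 49, 52]

/-- `dec` on `Fin 64`, an injective function -/
def decE : Fin 64 ↪ Finset (Fin 6) :=
  ⟨fun x => dec x.val, fun x y h => Fin.ext (dec_inj x.2 y.2 h)⟩

theorem S_l0 : S l0 = l64.toFinset.map decE := by
  ext x
  rw [mem_S, Finset.mem_map]
  constructor
  · rintro ⟨a, ha, rfl⟩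
    have key : ∀ a ∈ l0, ∃ b ∈ l64, b.val = a := by decide +kernel
    obtain ⟨b, hb, rfl⟩ := key a ha
    exact ⟨b, List.mem_toFinset.2 hb, rfl⟩
  · rintro ⟨b, hb, rfl⟩
    have key : ∀ b ∈ l64, b.val ∈ l0 := by decide +kernel
    exact ⟨b.val, key b (List.mem_toFinset.1 hb), rfl⟩

theorem count_eq (i : ℕ) : ((sd ex).filter fun σ => σ.card = i).card
    = ((Finset.powersetCard i l64.toFinset).filter fun T =>
        ∀ x ∈ T, ∀ y ∈ T, cmpB x.val y.val = true).card := by
  have h1 : (sd ex).filter (fun σ => σ.card = i)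
      = (Finset.powersetCard i (l64.toFinset.map decE)).filter fun T =>
        ∀ x ∈ T, ∀ y ∈ T, x ≤ y ∨ y ≤ x := by
    unfold sd
    rw [ex_faces, S_l0]
    ext T
    simp only [orderComplex, Finset.mem_filter, Finset.mem_powerset, Finset.mem_powersetCard]
    tauto
  rw [h1, Finset.powersetCard_map, Finset.filter_map, Finset.card_map]
  congr 1
  apply Finset.filter_congr
  intro T _
  simp only [Function.comp, RelEmbedding.coe_toEmbedding, Finset.mapEmbedding_apply]
  constructor
  · intro h x hx y hy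
    exact (cmpB_iff x.2 y.2).2 (h (decE x) (Finset.mem_map_of_mem _ hx) (decE y)
      (Finset.mem_map_of_mem _ hy))
  · intro h x hx y hy
    obtain ⟨x', hx', rfl⟩ := Finset.mem_map.1 hx
    obtain ⟨y', hy', rfl⟩ := Finset.mem_map.1 hy
    exact (cmpB_iff x'.2 y'.2).1 (h x' hx' y' hy')

/-- pairwise comparability test on lists -/
def tst (l : List (Fin 64)) : Bool := l.all fun x => l.all fun y => cmpB x.val y.val

theorem card_list (i : ℕ) : ((Finset.powersetCard i l64.toFinset).filter fun T =>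
        ∀ x ∈ T, ∀ y ∈ T, cmpB x.val y.val = true).card
    = (List.sublistsLen i l64).countP tst := by
  have hn : l64.Nodup := by decide +kernel
  have h1 := Finset.map_val_val_powersetCard l64.toFinset i
  rw [List.toFinset_val, hn.dedup, Multiset.powersetCard_coe] at h1
  have h2 : ((Finset.powersetCard i l64.toFinset).filter fun T =>
        ∀ x ∈ T, ∀ y ∈ T, cmpB x.val y.val = true).card
      = (((Finset.powersetCard i l64.toFinset).val.map Finset.val).filter fun m =>
        ∀ x ∈ m, ∀ y ∈ m, cmpB x.val y.val = true).card := by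
    rw [Multiset.filter_map, Multiset.card_map]
    rfl
  rw [h2, h1, Multiset.filter_coe, Multiset.coe_card, List.filter_map, List.length_map,
    List.countP_eq_length_filter]
  congr 1
  apply List.filter_congr
  intro l _
  rw [Bool.eq_iff_iff]
  simp [tst]

theorem count0 : ((sd ex).filter fun σ => σ.card = 0).card = 1 := by
  rw [count_eq, card_list]; decide +kernel

theorem count1 : ((sd ex).filter fun σ => σ.card = 1).card = 30 := by
  rw [count_eq, card_list]; decide +kernel

theorem count2 : ((sd ex).filter fun σ => σ.card = 2).card = 88 := by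
  rw [count_eq, card_list]; decide +kernel

theorem count3 : ((sd ex).filter fun σ => σ.card = 3).card = 60 := by
  rw [count_eq, card_list]; decide +kernel

open Polynomial in
theorem hPoly_ex : hPoly 3 (sd ex) = 1 + 27 * X + 31 * X ^ 2 + X ^ 3 := by
  unfold hPoly
  have h1 : ∀ σ ∈ sd ex, σ.card ∈ Finset.range 4 := by
    intro σ hσ
    rw [Finset.mem_range]
    unfold sd at hσ
    rw [ex_faces] at hσ
    have := chain_card_le card_S0 hσ
    omega
  rw [← Finset.sum_fiberwise_of_maps_to h1]
  have h2 : ∀ i, ∑ σ ∈ (sd ex).filter (fun σ => σ.card = i),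
      (X : Polynomial ℝ) ^ σ.card * (1 - X) ^ (3 - σ.card)
      = (((sd ex).filter fun σ => σ.card = i).card : Polynomial ℝ) * (X ^ i * (1 - X) ^ (3 - i)) := by
    intro i
    rw [← nsmul_eq_mul, ← Finset.sum_const]
    apply Finset.sum_congr rfl
    intro σ hσ
    rw [(Finset.mem_filter.1 hσ).2]
  simp only [h2, Finset.sum_range_succ, Finset.sum_range_zero, count0, count1, count2, count3]
  norm_num
  ring

open Polynomial in
theorem symDec_ex (a b : Polynomial ℝ) : IsSymDec 3 (hPoly 3 (sd ex)) a b ↔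
    a = 1 + 27 * X + 27 * X ^ 2 + X ^ 3 ∧ b = 4 * X := by
  rw [hPoly_ex]
  constructor
  · rintro ⟨h1, ⟨h2, h3⟩, h4, h5⟩
    have e3 : a.coeff 0 = a.coeff 3 := h3 0 (by norm_num)
    have e4 : a.coeff 1 = a.coeff 2 := h3 1 (by norm_num)
    have e5 : b.coeff 0 = b.coeff 2 := h5 0 (by norm_num)
    have c0 := congrArg (fun p => Polynomial.coeff p 0) h1
    have c1 := congrArg (fun p => Polynomial.coeff p 1) h1
    have c2 := congrArg (fun p => Polynomial.coeff p 2) h1
    have c3 := congrArg (fun p => Polynomial.coeff p 3) h1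
    have x27 : (27 : Polynomial ℝ) = C 27 := rfl
    have x31 : (31 : Polynomial ℝ) = C 31 := rfl
    have x4 : (4 : Polynomial ℝ) = C 4 := rfl
    have m0 : (X * b).coeff 0 = 0 := by simp
    have m1 : (X * b).coeff 1 = b.coeff 0 := Polynomial.coeff_X_mul b 0
    have m2 : (X * b).coeff 2 = b.coeff 1 := Polynomial.coeff_X_mul b 1
    have m3 : (X * b).coeff 3 = b.coeff 2 := Polynomial.coeff_X_mul b 2
    simp only [x27, x31, Polynomial.coeff_add, Polynomial.coeff_X, Polynomial.coeff_one,
      Polynomial.coeff_X_pow, Polynomial.coeff_C_mul, m0, m1, m2, m3] at c0 c1 c2 c3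
    norm_num at c0 c1 c2 c3
    have a0 : a.coeff 0 = 1 := by linarith
    have a3 : a.coeff 3 = 1 := by linarith
    have b2 : b.coeff 2 = 0 := by linarith
    have b0 : b.coeff 0 = 0 := by linarith
    have a1 : a.coeff 1 = 27 := by linarith
    have a2 : a.coeff 2 = 27 := by linarith
    have b1 : b.coeff 1 = 4 := by linarith
    constructor
    · rw [a.as_sum_range' 4 (by omega)]
      simp only [Finset.sum_range_succ, Finset.sum_range_zero, a0, a1, a2, a3,
        ← Polynomial.C_mul_X_pow_eq_monomial]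
      rw [x27]
      simp
    · rw [b.as_sum_range' 3 (by omega)]
      simp only [Finset.sum_range_succ, Finset.sum_range_zero, b0, b1, b2,
        ← Polynomial.C_mul_X_pow_eq_monomial]
      rw [x4]
      simp
  · rintro ⟨rfl, rfl⟩
    have x27 : (27 : Polynomial ℝ) = C 27 := rfl
    have x4 : (4 : Polynomial ℝ) = C 4 := rfl
    refine ⟨by ring, ⟨?_, ?_⟩, ?_, ?_⟩
    · rw [x27]
      compute_degree
    · intro i hi
      interval_cases i <;>
        simp [x27, Polynomial.coeff_X, Polynomial.coeff_one, Polynomial.coeff_X_pow,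
          Polynomial.coeff_C_mul]
    · rw [x4]
      compute_degree
      norm_num
    · intro i hi
      have hi' : i ≤ 2 := hi
      interval_cases i <;>
        simp [x4, Polynomial.coeff_X, Polynomial.coeff_C_mul]

open Polynomial in
theorem final : Nonneg (1 + 27 * X + 27 * X ^ 2 + X ^ 3 : Polynomial ℝ) ∧
    Nonneg (4 * X : Polynomial ℝ) ∧
    RealRooted (1 + 27 * X + 27 * X ^ 2 + X ^ 3 : Polynomial ℝ) ∧
    RealRooted (4 * X : Polynomial ℝ) ∧
    ¬ Interlaces (4 * X : Polynomial ℝ) (1 + 27 * X + 27 * X ^ 2 + X ^ 3) := by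
  have x27 : (27 : Polynomial ℝ) = C 27 := rfl
  have x4 : (4 : Polynomial ℝ) = C 4 := rfl
  have hA0 : (1 + 27 * X + 27 * X ^ 2 + X ^ 3 : Polynomial ℝ) ≠ 0 := by
    intro h
    have := congrArg (fun p => Polynomial.coeff p 3) h
    simp [x27, Polynomial.coeff_X, Polynomial.coeff_one, Polynomial.coeff_X_pow,
      Polynomial.coeff_C_mul] at this
  have hB0 : (4 * X : Polynomial ℝ) ≠ 0 := by
    rw [x4]
    exact mul_ne_zero (by simp) Polynomial.X_ne_zero
  refine ⟨?_, ?_, ?_, ?_, ?_⟩
  · intro i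
    rw [x27]
    simp only [Polynomial.coeff_add, Polynomial.coeff_C_mul, Polynomial.coeff_X,
      Polynomial.coeff_one, Polynomial.coeff_X_pow]
    split_ifs <;> norm_num
  · intro i
    rw [x4]
    simp only [Polynomial.coeff_C_mul, Polynomial.coeff_X]
    split_ifs <;> norm_num
  · right
    intro z hz
    simp only [map_add, map_mul, map_pow, Polynomial.aeval_X, map_one, x27,
      Polynomial.aeval_C] at hz
    have h1 : (z + 1) * ((z + 13) ^ 2 - 168) = 0 := by
      have : (algebraMap ℝ ℂ) 27 = 27 := by norm_num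
      rw [this] at hz
      linear_combination hz
    rcases mul_eq_zero.1 h1 with h | h
    · have := congrArg Complex.im h
      simpa using this
    · have hre := congrArg Complex.re h
      have him := congrArg Complex.im h
      simp [pow_two] at hre him
      have h2 : (z.re + 13) * z.im = 0 := by linarith
      rcases mul_eq_zero.1 h2 with h3 | h3
      · exfalso
        rw [h3] at hre
        nlinarith [sq_nonneg z.im]
      · exact h3
  · right
    intro z hz
    simp only [map_mul, Polynomial.aeval_X, x4, Polynomial.aeval_C] at hz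
    have : (algebraMap ℝ ℂ) 4 = 4 := by norm_num
    rw [this] at hz
    have h1 : z = 0 := by
      rcases mul_eq_zero.1 hz with h | h
      · norm_num at h
      · exact h
    rw [h1]
    rfl
  · rintro (h | h | ⟨h, _⟩)
    · exact hB0 h
    · exact hA0 h
    · have hβ : (4 * X : Polynomial ℝ).roots.sort (· ≥ ·) = [0] := by
        rw [x4, Polynomial.roots_C_mul _ (by norm_num : (4 : ℝ) ≠ 0), Polynomial.roots_X]
        exact Multiset.sort_singleton _ _
      have hneg : ∀ r ∈ (1 + 27 * X + 27 * X ^ 2 + X ^ 3 : Polynomial ℝ).roots, r < 0 := by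
        intro r hr
        rw [Polynomial.mem_roots hA0, Polynomial.IsRoot.def] at hr
        by_contra h1
        push Not at h1
        simp only [x27, Polynomial.eval_add, Polynomial.eval_mul, Polynomial.eval_pow,
          Polynomial.eval_X, Polynomial.eval_one, Polynomial.eval_C] at hr
        have : 0 ≤ 27 * r + 27 * r ^ 2 + r ^ 3 := by positivity
        linarith
      have hmem : (-1 : ℝ) ∈ (1 + 27 * X + 27 * X ^ 2 + X ^ 3 : Polynomial ℝ).roots := by
        rw [Polynomial.mem_roots hA0, Polynomial.IsRoot.def]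
        simp only [x27, Polynomial.eval_add, Polynomial.eval_mul, Polynomial.eval_pow,
          Polynomial.eval_X, Polynomial.eval_one, Polynomial.eval_C]
        norm_num
      have hlen : 0 < ((1 + 27 * X + 27 * X ^ 2 + X ^ 3 : Polynomial ℝ).roots.sort
          (· ≥ ·)).length := by
        rw [Multiset.length_sort]
        exact Multiset.card_pos_iff_exists_mem.2 ⟨_, hmem⟩
      have h1 := h 0 (by rw [hβ]; simp) hlen
      have h2 := hneg _ ((Multiset.mem_sort (r := (· ≥ ·))).1 (List.getElem_mem hlen))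
      have h3 : ∀ (l : List ℝ) (hl : l = [0]) (h : 0 < l.length), l[0] = 0 := by
        rintro l rfl h
        rfl
      rw [h3 _ hβ] at h1
      linarith

open Polynomial in
/-- **Q2 of MP_64f3b0_co is false over every field.** -/
theorem result : ∃ L : Cplx 6, (∀ (k : Type) [Field k], IsCMStar k 3 L) ∧
    hPoly 3 (sd L) = 1 + 27 * X + 31 * X ^ 2 + X ^ 3 ∧
    ∃ a b : Polynomial ℝ, a = 1 + 27 * X + 27 * X ^ 2 + X ^ 3 ∧ b = 4 * X ∧
      (∀ a' b' : Polynomial ℝ, IsSymDec 3 (hPoly 3 (sd L)) a' b' ↔ a' = a ∧ b' = b) ∧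
      Nonneg a ∧ Nonneg b ∧ RealRooted a ∧ RealRooted b ∧ ¬ Interlaces b a :=
  ⟨ex, fun k _ => cmStar k, hPoly_ex, _, _, rfl, rfl, symDec_ex, final⟩

end exm

end Pool.Agent.Results.MP_64f3b0_co.NotInterlacing
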